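import Pool.Agent.H355R3.UF.Stmts

set_option autoImplicit false

/-!
Task B of project H355-UF: the abelian Bryant–Bryce–Hartley lemma.
-/

namespace H636R3.UF

open H355R3 RegularWreathProduct

theorem charSep {p : ℕ} [hp : Fact p.Prime] (E : Type) [CommGroup E] [Finite E]
    (hpow : ∀ x : E, x ^ p = 1) (g : E) (hne : g ≠ 1) :
    ∃ f : E →* Zp p, Function.Surjective f ∧ f g ≠ 1 := by
  let _ : Module (ZMod p) (Additive E) := AddCommGroup.zmodModule (n := p) (by
    intro x
    exact hpow x)
  have h1 : (Additive.ofMul g : Additive E) ≠ 0 := hne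
  obtain ⟨φ, hφ⟩ := exists_hom_ne_zero (p := p) (Additive E) _ h1
  let f : E →* Zp p := AddMonoidHom.toMultiplicativeRight φ
  have hf : Function.Surjective f := by
    rw [← MonoidHom.range_eq_top]
    have hsimple : IsSimpleGroup (Zp p) := isSimpleGroup_of_prime_card (card_Zp p)
    rcases (inferInstance : f.range.Normal).eq_bot_or_eq_top with h | h
    · exfalso
      have h3 : f g ∈ f.range := ⟨g, rfl⟩
      rw [h, Subgroup.mem_bot] at h3
      exact hφ h3
    · exact h
  exact ⟨f, hf, hφ⟩

theorem wreath_elem' {p : ℕ} [hp : Fact p.Prime] (D : Formation) (X : Type) [Group X] [Finite X]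
    (hD : D.Mem (RegularWreathProduct (Zp p) X)) (E : Type) [CommGroup E] [Finite E]
    (hpow : ∀ x : E, x ^ p = 1) (hnt : ∃ e : E, e ≠ 1) : D.Mem (RegularWreathProduct E X) := by
  have hfin : Finite {f : E →* Zp p // Function.Surjective f} := by
    have : Finite (E →* Zp p) := DFunLike.finite _
    infer_instance
  refine D.mem_of_family (ι := {f : E →* Zp p // Function.Surjective f})
    (fun _ => RegularWreathProduct (Zp p) X)
    (fun f => mapLeft f.1) (fun f => mapLeft_surj f.1 f.2) ?_ fun _ => hD
  intro g hg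
  apply RegularWreathProduct.ext
  · funext x
    by_contra hne
    obtain ⟨f, hf, hfg⟩ := charSep (p := p) E hpow (g.left x) hne
    exact hfg (congrFun (congrArg RegularWreathProduct.left (hg ⟨f, hf⟩)) x)
  · obtain ⟨e, he⟩ := hnt
    obtain ⟨f, hf, -⟩ := charSep (p := p) E hpow e he
    have h := hg ⟨f, hf⟩
    exact (congrArg RegularWreathProduct.right h : ((mapLeft f) g).right = _)

theorem wreath_elem {p : ℕ} [hp : Fact p.Prime] (D : Formation) (X : Type) [Group X] [Finite X]
    (hD : D.Mem (RegularWreathProduct (Zp p) X)) (E : Type) [i : Group E] [Finite E]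
    (hc : ∀ x y : E, x * y = y * x)
    (hpow : ∀ x : E, x ^ p = 1) (hnt : ∃ e : E, e ≠ 1) : D.Mem (RegularWreathProduct E X) :=
  @wreath_elem' p hp D X _ _ hD E { i with mul_comm := hc } _ hpow hnt

theorem taskB : UF.TaskB := by
  intro p _ B X _ _ hD K _ _ f hf hpow hab
  set P : Subgroup K := f.ker with hP
  have hcomm : ∀ a b : P, a * b = b * a := by
    intro a b
    apply Subtype.ext
    exact hab a a.2 b b.2
  by_cases htriv : ∃ e : P, e ≠ 1
  swap
  · push Not at htriv
    have hinj : Function.Injective f := by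
      rw [injective_iff_map_eq_one]
      intro a ha
      exact congrArg Subtype.val (htriv ⟨a, ha⟩)
    let e : K ≃* X := MulEquiv.ofBijective f ⟨hinj, hf⟩
    exact B.iso e.symm (B.mem_of_surjective rightHom rightHom_surj hD)
  have hW : B.Mem (RegularWreathProduct P X) :=
    wreath_elem B X hD P hcomm (fun x => Subtype.ext (hpow x x.2)) htriv
  -- the fibre product
  let D : Subgroup (RegularWreathProduct P X × K) :=
    MonoidHom.eqLocus
      ((rightHom : RegularWreathProduct P X →* X).comp (MonoidHom.fst _ _))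
      (f.comp (MonoidHom.snd _ _))
  have hD : ∀ x : D, (x : RegularWreathProduct P X × K).1.right
      = f (x : RegularWreathProduct P X × K).2 := fun x => x.2
  have hDmem : ∀ (w : RegularWreathProduct P X) (k : K), w.right = f k →
      (w, k) ∈ D := fun w k h => h
  -- section
  let s : X → K := Function.surjInv hf
  have hs : ∀ v : X, f (s v) = v := fun v => Function.surjInv_eq hf v
  have hτ : ∀ (k : K) (v : X), (s v)⁻¹ * k * s ((f k)⁻¹ * v) ∈ P := by
    intro k v
    rw [hP, MonoidHom.mem_ker, map_mul, map_mul, map_inv, hs, hs]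
    group
  let τ : K → X → P := fun k v => ⟨_, hτ k v⟩
  have hτmul : ∀ k k' v, τ (k * k') v = τ k v * τ k' ((f k)⁻¹ * v) := by
    intro k k' v
    apply Subtype.ext
    show (s v)⁻¹ * (k * k') * s ((f (k * k'))⁻¹ * v) =
      ((s v)⁻¹ * k * s ((f k)⁻¹ * v)) * ((s ((f k)⁻¹ * v))⁻¹ * k' *
        s ((f k')⁻¹ * ((f k)⁻¹ * v)))
    have e : (f (k * k'))⁻¹ * v = (f k')⁻¹ * ((f k)⁻¹ * v) := by
      rw [map_mul]; group
    rw [e]
    group
  let θ₂ : D →* RegularWreathProduct P X :=
    { toFun := fun x => ⟨fun v => (x : RegularWreathProduct P X × K).1.left v *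
        τ (x : RegularWreathProduct P X × K).2 v,
        (x : RegularWreathProduct P X × K).1.right⟩
      map_one' := by
        apply RegularWreathProduct.ext
        · funext v
          apply Subtype.ext
          show (1 : K) * ((s v)⁻¹ * 1 * s ((f 1)⁻¹ * v)) = 1
          rw [map_one]
          simp
        · rfl
      map_mul' := by
        intro x y
        apply RegularWreathProduct.ext
        · funext v
          have hx := hD x
          simp only [Subgroup.coe_mul, Prod.fst_mul, Prod.snd_mul,
            RegularWreathProduct.mul_left, Pi.mul_apply, hτmul, hx]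
          rw [mul_assoc, mul_assoc, ← mul_assoc
            ((y : RegularWreathProduct P X × K).1.left _) (τ _ v) _, hcomm
            ((y : RegularWreathProduct P X × K).1.left _) (τ _ v), mul_assoc]
        · rfl }
  have hθ₂ : Function.Surjective θ₂ := by
    intro w
    obtain ⟨k, hk⟩ := hf w.right
    refine ⟨⟨(⟨fun v => w.left v * (τ k v)⁻¹, w.right⟩, k), hDmem _ _ hk.symm⟩, ?_⟩
    apply RegularWreathProduct.ext
    · funext v
      show w.left v * (τ k v)⁻¹ * τ k v = w.left v
      rw [inv_mul_cancel_right]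
    · rfl
  let θ₁ : D →* RegularWreathProduct P X := (MonoidHom.fst _ _).comp D.subtype
  have hθ₁ : Function.Surjective θ₁ := by
    intro w
    obtain ⟨k, hk⟩ := hf w.right
    exact ⟨⟨(w, k), hDmem _ _ hk.symm⟩, rfl⟩
  have hDB : B.Mem D := by
    refine B.mem_of_two θ₁ θ₂ hθ₁ hθ₂ ?_ hW hW
    rintro ⟨⟨w, k⟩, hwk⟩ h1 h2
    have hw : w = 1 := h1
    subst hw
    have hk : f k = 1 := ((hD ⟨(1, k), hwk⟩).symm).trans rfl
    have h3 := congrFun (congrArg RegularWreathProduct.left h2) 1
    have h4 : (1 : K) * ((s 1)⁻¹ * k * s ((f k)⁻¹ * 1)) = 1 := congrArg Subtype.val h3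
    rw [hk, inv_one, one_mul, one_mul] at h4
    have h5 : k = 1 := by
      have h6 : k = s 1 * ((s 1)⁻¹ * k * s 1) * (s 1)⁻¹ := by group
      rw [h6, h4]
      group
    apply Subtype.ext
    exact Prod.ext rfl h5
  let π : D →* K := (MonoidHom.snd _ _).comp D.subtype
  refine B.mem_of_surjective π ?_ hDB
  intro k
  exact ⟨⟨(⟨1, f k⟩, k), hDmem _ _ rfl⟩, rfl⟩

end H636R3.UF
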